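import Pool.Agent.L5helper98.ID.Defs

/-!
# The regularised `g` (piece REG of MP_6ad96e_pr)
-/

set_option autoImplicit false

open MeasureTheory ProbabilityTheory Filter Topology Set
open scoped ENNReal BoundedContinuousFunction

namespace Pool.Agent.L5helper90.ID

open Pool.Agent.L5helper98.ID

theorem lp_nonneg (x : ℝ) : 0 ≤ L5helper98.ID.lp x := le_max_right _ _

theorem lp_neg (x : ℝ) : L5helper98.ID.lp (-x) = L5helper98.ID.lp x := by unfold L5helper98.ID.lp; rw [abs_neg]

theorem lp_eq : L5helper98.ID.lp = indicator (Icc (-1) 1) (fun x => -Real.log x) := by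
  funext x
  unfold L5helper98.ID.lp
  rw [one_div, Real.log_inv, Real.log_abs]
  by_cases hx : x ∈ Icc (-1 : ℝ) 1
  · rw [indicator_of_mem hx]
    apply max_eq_left
    have : Real.log |x| ≤ 0 := Real.log_nonpos (abs_nonneg x) (abs_le.mpr hx)
    rw [Real.log_abs] at this
    linarith
  · rw [indicator_of_notMem hx]
    apply max_eq_right
    have h1 : 1 < |x| := by
      by_contra h
      exact hx (abs_le.mp (not_lt.mp h))
    have : 0 ≤ Real.log |x| := Real.log_nonneg h1.le
    rw [Real.log_abs] at this
    linarith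

theorem lp_meas : Measurable L5helper98.ID.lp := by
  rw [lp_eq]
  exact (Real.measurable_log.neg).indicator measurableSet_Icc

theorem lp_int : Integrable L5helper98.ID.lp := by
  rw [lp_eq, integrable_indicator_iff measurableSet_Icc]
  have h : IntervalIntegrable Real.log volume (-1) 1 := intervalIntegral.intervalIntegrable_log'
  rw [intervalIntegrable_iff_integrableOn_Icc_of_le (by norm_num)] at h
  exact h.neg

theorem th_bdd {θ : ℝ → ℝ} (h : AdmT θ) : ∃ C, ∀ x, |θ x| ≤ C := by
  obtain ⟨C, hC⟩ := h.decay 0
  refine ⟨C, fun x => ?_⟩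
  rw [abs_of_nonneg (h.nonneg x)]
  simpa using hC x

theorem int_lp {θ : ℝ → ℝ} (h : AdmT θ) {ε : ℝ} (hε : 0 < ε) (x : ℝ) :
    Integrable (fun y => θ (y / ε) / ε * L5helper98.ID.lp (x - y)) := by
  obtain ⟨C, hC⟩ := th_bdd h
  have h1 : Integrable (fun y => L5helper98.ID.lp (x - y)) := lp_int.comp_sub_left x
  refine h1.bdd_mul (c := C / ε) ?_ ?_
  · exact ((h.cont.comp (continuous_id.div_const ε)).div_const ε).aestronglyMeasurable
  · refine Eventually.of_forall fun y => ?_
    rw [Real.norm_eq_abs, abs_div, abs_of_pos hε]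
    gcongr
    exact hC _

theorem int_th {θ : ℝ → ℝ} (h : AdmT θ) {ε : ℝ} (hε : 0 < ε) :
    Integrable (fun y => θ (y / ε) / ε) :=
  (h.integrable.comp_div hε.ne').div_const ε

theorem int_cos {θ : ℝ → ℝ} (h : AdmT θ) {ε : ℝ} (hε : 0 < ε) :
    Integrable (fun y => θ (y / ε) / ε * Real.cos y) := by
  refine (int_th h hε).mul_bdd (c := 1) Real.continuous_cos.aestronglyMeasurable ?_
  refine Eventually.of_forall fun y => ?_
  rw [Real.norm_eq_abs]
  exact Real.abs_cos_le_one y

theorem int_sin {θ : ℝ → ℝ} (h : AdmT θ) {ε : ℝ} (hε : 0 < ε) :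
    Integrable (fun y => θ (y / ε) / ε * Real.sin y) := by
  refine (int_th h hε).mul_bdd (c := 1) Real.continuous_sin.aestronglyMeasurable ?_
  refine Eventually.of_forall fun y => ?_
  rw [Real.norm_eq_abs]
  exact Real.abs_sin_le_one y

theorem cos_part {θ : ℝ → ℝ} {ε : ℝ} (hε : 0 < ε) :
    ∫ y, θ (y / ε) / ε * Real.cos y = ∫ u, θ u * Real.cos (ε * u) := by
  have h1 := Measure.integral_comp_div (fun u => θ u / ε * Real.cos (ε * u)) ε
  have h2 : (fun y : ℝ => θ (y / ε) / ε * Real.cos (ε * (y / ε))) =
      fun y => θ (y / ε) / ε * Real.cos y := by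
    funext y
    rw [mul_div_cancel₀ _ hε.ne']
  rw [h2] at h1
  rw [h1, abs_of_pos hε, smul_eq_mul, ← integral_const_mul]
  congr 1
  funext u
  field_simp

theorem sin_part {θ : ℝ → ℝ} (h : AdmT θ) {ε : ℝ} :
    ∫ y, θ (y / ε) / ε * Real.sin y = 0 := by
  have h1 := integral_neg_eq_self (fun y => θ (y / ε) / ε * Real.sin y) volume
  have h2 : (fun y : ℝ => θ (-y / ε) / ε * Real.sin (-y)) =
      fun y => -(θ (y / ε) / ε * Real.sin y) := by
    funext y
    rw [neg_div, h.posdef.1, Real.sin_neg]
    ring
  rw [h2, integral_neg] at h1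
  linarith

theorem REG_holds : St_REG := by
  intro θ h K
  refine ⟨fun ε => ∫ u, θ u * Real.cos (ε * u), ?_, ?_, ?_⟩
  · intro ε
    calc |∫ u, θ u * Real.cos (ε * u)| ≤ ∫ u, |θ u * Real.cos (ε * u)| :=
          abs_integral_le_integral_abs
      _ ≤ ∫ u, θ u := by
          apply integral_mono_of_nonneg (Eventually.of_forall fun u => abs_nonneg _) h.integrable
          refine Eventually.of_forall fun u => ?_
          show |θ u * Real.cos (ε * u)| ≤ θ u
          rw [abs_mul, abs_of_nonneg (h.nonneg u)]
          exact mul_le_of_le_one_right (h.nonneg u) (Real.abs_cos_le_one _)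
      _ = 1 := h.int_one
  · have key : Tendsto (fun ε : ℝ => ∫ u, θ u * Real.cos (ε * u)) (𝓝 0)
        (𝓝 (∫ u, θ u * Real.cos (0 * u))) := by
      refine tendsto_integral_filter_of_dominated_convergence θ ?_ ?_ h.integrable ?_
      · refine Eventually.of_forall fun ε => ?_
        exact (h.cont.mul (Real.continuous_cos.comp
          (continuous_const.mul continuous_id))).aestronglyMeasurable
      · refine Eventually.of_forall fun ε => Eventually.of_forall fun u => ?_
        rw [Real.norm_eq_abs, abs_mul, abs_of_nonneg (h.nonneg u)]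
        exact mul_le_of_le_one_right (h.nonneg u) (Real.abs_cos_le_one _)
      · refine Eventually.of_forall fun u => ?_
        have hc : Continuous fun ε : ℝ => θ u * Real.cos (ε * u) :=
          continuous_const.mul (Real.continuous_cos.comp (continuous_id.mul continuous_const))
        exact hc.tendsto 0
    have e : ∫ u, θ u * Real.cos (0 * u) = 1 := by
      rw [← h.int_one]
      congr 1
      funext u
      simp
    rw [e] at key
    exact key.mono_left nhdsWithin_le_nhds
  · intro ε hε
    refine ⟨?_, ?_, ?_, ?_⟩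
    · intro x
      show ∫ y, θ (y / ε) / ε * (L5helper98.ID.lp (x - y) + K * Real.cos (x - y)) =
        (∫ y, θ (y / ε) / ε * L5helper98.ID.lp (x - y)) + K * (∫ u, θ u * Real.cos (ε * u)) * Real.cos x
      have e1 : (fun y => θ (y / ε) / ε * (L5helper98.ID.lp (x - y) + K * Real.cos (x - y))) =
          fun y => θ (y / ε) / ε * L5helper98.ID.lp (x - y) +
            ((K * Real.cos x) * (θ (y / ε) / ε * Real.cos y) +
              (K * Real.sin x) * (θ (y / ε) / ε * Real.sin y)) := by
        funext y
        rw [Real.cos_sub]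
        ring
      have i1 : Integrable (fun y => (K * Real.cos x) * (θ (y / ε) / ε * Real.cos y)) :=
        (int_cos h hε).const_mul _
      have i2 : Integrable (fun y => (K * Real.sin x) * (θ (y / ε) / ε * Real.sin y)) :=
        (int_sin h hε).const_mul _
      have i3 : Integrable (fun y => (K * Real.cos x) * (θ (y / ε) / ε * Real.cos y) +
          (K * Real.sin x) * (θ (y / ε) / ε * Real.sin y)) := i1.add i2
      rw [e1, integral_add (int_lp h hε x) i3, integral_add i1 i2,
        integral_const_mul, integral_const_mul, cos_part hε, sin_part h]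
      ring
    · intro x
      apply integral_nonneg
      intro y
      exact mul_nonneg (div_nonneg (h.nonneg _) hε.le) (lp_nonneg _)
    · intro x
      show ∫ y, θ (y / ε) / ε * L5helper98.ID.lp (-x - y) = ∫ y, θ (y / ε) / ε * L5helper98.ID.lp (x - y)
      rw [← integral_neg_eq_self (fun y => θ (y / ε) / ε * L5helper98.ID.lp (-x - y)) volume]
      congr 1
      funext y
      rw [neg_div, h.posdef.1, ← lp_neg (x - y)]
      congr 2
      ring
    · have hm : StronglyMeasurable (Function.uncurry fun (x y : ℝ) =>
          θ (y / ε) / ε * L5helper98.ID.lp (x - y)) := by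
        apply Measurable.stronglyMeasurable
        have a1 : Measurable fun p : ℝ × ℝ => θ (p.2 / ε) / ε :=
          (h.cont.measurable.comp (measurable_snd.div_const ε)).div_const ε
        have a2 : Measurable fun p : ℝ × ℝ => L5helper98.ID.lp (p.1 - p.2) :=
          lp_meas.comp (measurable_fst.sub measurable_snd)
        exact a1.mul a2
      exact (hm.integral_prod_right (ν := volume)).measurable

end Pool.Agent.L5helper90.ID
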